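import Mathlib

/-!
# MP_8ae193_an: bounded lag

For every square matrix `A` over `ℕ` and every `l`, the matrices that are shift equivalent to `A` with a
lag of at most `l` form finitely many strong shift equivalence classes: each of them is strong shift
equivalent to a matrix whose size and entries are bounded by the number of paths of `A` of the length of
the lag. So the shift equivalence class of `A` consists of finitely many strong shift equivalence classes
iff the lags to `A` of suitable representatives of these classes are bounded.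
-/

set_option autoImplicit false

namespace Pool.Agent.Results.MP_8ae193_an.BoundedLag

open Matrix

/-- The square matrices over `ℕ`, of any size. -/
abbrev Mat : Type := Σ n : ℕ, Matrix (Fin n) (Fin n) ℕ

/-- Elementary strong shift equivalence over `ℕ`: `X = R S`, `Y = S R`. -/
def Elem (X Y : Mat) : Prop :=
  ∃ R : Matrix (Fin X.1) (Fin Y.1) ℕ, ∃ S : Matrix (Fin Y.1) (Fin X.1) ℕ,
    X.2 = R * S ∧ Y.2 = S * R

/-- Strong shift equivalence over `ℕ`: a finite chain of elementary ones. -/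
def SSE (X Y : Mat) : Prop := Relation.ReflTransGen Elem X Y

/-- `A` and `B` are shift equivalent over `ℕ` with lag `l`. -/
def SELag (l : ℕ) (A B : Mat) : Prop :=
  ∃ R : Matrix (Fin A.1) (Fin B.1) ℕ, ∃ S : Matrix (Fin B.1) (Fin A.1) ℕ,
    A.2 ^ l = R * S ∧ B.2 ^ l = S * R ∧ A.2 * R = R * B.2 ∧ S * A.2 = B.2 * S

/-- Shift equivalence over `ℕ`. -/
def SE (A B : Mat) : Prop := ∃ l, 0 < l ∧ SELag l A B

/-- The number of paths of length `l`: the sum of the entries of `A ^ l`. -/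
def paths (A : Mat) (l : ℕ) : ℕ := ∑ i, ∑ j, (A.2 ^ l) i j

theorem elem_of {m n : ℕ} {X : Matrix (Fin m) (Fin m) ℕ} {Y : Matrix (Fin n) (Fin n) ℕ}
    (R : Matrix (Fin m) (Fin n) ℕ) (S : Matrix (Fin n) (Fin m) ℕ) (h1 : X = R * S)
    (h2 : Y = S * R) : Elem ⟨m, X⟩ ⟨n, Y⟩ := ⟨R, S, h1, h2⟩

theorem elem_col {m : ℕ} (B : Matrix (Fin (m + 1)) (Fin (m + 1)) ℕ) (j : Fin (m + 1))
    (h : ∀ i, B i j = 0) : Elem ⟨m + 1, B⟩ ⟨m, B.submatrix j.succAbove j.succAbove⟩ := by
  refine elem_of (B.submatrix id j.succAbove)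
    (Matrix.of fun a b => if j.succAbove a = b then 1 else 0) ?_ ?_
  · ext i b
    rw [Matrix.mul_apply]
    rcases Fin.eq_self_or_eq_succAbove j b with hb | ⟨c, hc⟩
    · subst hb
      rw [h i]
      symm
      refine Finset.sum_eq_zero fun a _ => ?_
      rw [Matrix.of_apply, if_neg (Fin.succAbove_ne _ _), mul_zero]
    · subst hc
      rw [Finset.sum_eq_single c]
      · simp
      · intro a _ hac
        rw [Matrix.of_apply, if_neg (fun e => hac (Fin.succAbove_right_injective e)), mul_zero]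
      · intro hc
        exact absurd (Finset.mem_univ _) hc
  · ext a c
    rw [Matrix.mul_apply]
    simp

theorem elem_row {m : ℕ} (B : Matrix (Fin (m + 1)) (Fin (m + 1)) ℕ) (j : Fin (m + 1))
    (h : ∀ i, B j i = 0) : Elem ⟨m + 1, B⟩ ⟨m, B.submatrix j.succAbove j.succAbove⟩ := by
  refine elem_of (Matrix.of fun b a => if j.succAbove a = b then 1 else 0)
    (B.submatrix j.succAbove id) ?_ ?_
  · ext b i
    rw [Matrix.mul_apply]
    rcases Fin.eq_self_or_eq_succAbove j b with hb | ⟨c, hc⟩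
    · subst hb
      rw [h i]
      symm
      refine Finset.sum_eq_zero fun a _ => ?_
      rw [Matrix.of_apply, if_neg (Fin.succAbove_ne _ _), zero_mul]
    · subst hc
      rw [Finset.sum_eq_single c]
      · simp
      · intro a _ hac
        rw [Matrix.of_apply, if_neg (fun e => hac (Fin.succAbove_right_injective e)), zero_mul]
      · intro hc
        exact absurd (Finset.mem_univ _) hc
  · ext a c
    rw [Matrix.mul_apply]
    simp

/-- Zero rows and columns are removed by elementary strong shift equivalences. -/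
theorem trim : ∀ (m : ℕ) (B : Matrix (Fin m) (Fin m) ℕ), ∃ (k : ℕ) (f : Fin k → Fin m),
    Function.Injective f ∧ SSE ⟨m, B⟩ ⟨k, B.submatrix f f⟩ ∧
      (∀ i, ∃ j, B (f i) (f j) ≠ 0) ∧ ∀ j, ∃ i, B (f i) (f j) ≠ 0 := by
  intro m
  induction m with
  | zero =>
    intro B
    exact ⟨0, id, Function.injective_id, Relation.ReflTransGen.refl, fun i => i.elim0,
      fun i => i.elim0⟩
  | succ m ih =>
    intro B
    by_cases h : ∃ j, (∀ i, B i j = 0) ∨ ∀ i, B j i = 0
    · obtain ⟨j, hj⟩ := h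
      have hE : Elem ⟨m + 1, B⟩ ⟨m, B.submatrix j.succAbove j.succAbove⟩ := by
        rcases hj with hj | hj
        · exact elem_col B j hj
        · exact elem_row B j hj
      obtain ⟨k, f, hf, hs, h1, h2⟩ := ih (B.submatrix j.succAbove j.succAbove)
      exact ⟨k, fun a => j.succAbove (f a), Fin.succAbove_right_injective.comp hf,
        Relation.ReflTransGen.head hE hs, h1, h2⟩
    · push Not at h
      exact ⟨m + 1, id, Function.injective_id, Relation.ReflTransGen.refl, fun i => (h i).2,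
        fun i => (h i).1⟩

theorem sum_inj {k m : ℕ} {f : Fin k → Fin m} (hf : Function.Injective f) (F : Fin m → ℕ) :
    ∑ j, F (f j) ≤ ∑ j, F j := by
  have h : ∑ j, F (f j) = ∑ j ∈ Finset.univ.map ⟨f, hf⟩, F j := by
    rw [Finset.sum_map]
    rfl
  rw [h]
  exact Finset.sum_le_sum_of_subset (Finset.subset_univ _)

theorem pow_sub {k m : ℕ} {f : Fin k → Fin m} (hf : Function.Injective f)
    (B : Matrix (Fin m) (Fin m) ℕ) (l : ℕ) : ∀ a b,
      ((B.submatrix f f) ^ l) a b ≤ (B ^ l) (f a) (f b) := by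
  induction l with
  | zero =>
    intro a b
    simp only [pow_zero, Matrix.one_apply, hf.eq_iff]
    exact le_rfl
  | succ l ih =>
    intro a b
    rw [pow_succ, pow_succ, Matrix.mul_apply, Matrix.mul_apply]
    refine le_trans (Finset.sum_le_sum fun j _ => Nat.mul_le_mul_right _ (ih a j)) ?_
    exact sum_inj hf (fun j => (B ^ l) (f a) j * B j (f b))

theorem row_pow {k : ℕ} {C : Matrix (Fin k) (Fin k) ℕ} (h : ∀ i, ∃ j, C i j ≠ 0) (l : ℕ) :
    ∀ i, ∃ j, (C ^ l) i j ≠ 0 := by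
  induction l with
  | zero => exact fun i => ⟨i, by simp⟩
  | succ l ih =>
    intro i
    obtain ⟨j, hj⟩ := h i
    obtain ⟨b, hb⟩ := ih j
    refine ⟨b, ?_⟩
    rw [pow_succ', Matrix.mul_apply]
    have h1 : C i j * (C ^ l) j b ≤ ∑ x, C i x * (C ^ l) x b :=
      Finset.single_le_sum (f := fun x => C i x * (C ^ l) x b) (fun _ _ => Nat.zero_le _)
        (Finset.mem_univ j)
    have h2 : 0 < C i j * (C ^ l) j b := Nat.mul_pos (Nat.pos_of_ne_zero hj) (Nat.pos_of_ne_zero hb)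
    omega

theorem col_pow {k : ℕ} {C : Matrix (Fin k) (Fin k) ℕ} (h : ∀ j, ∃ i, C i j ≠ 0) (l : ℕ) :
    ∀ j, ∃ i, (C ^ l) i j ≠ 0 := by
  intro j
  obtain ⟨i, hi⟩ := row_pow (C := C.transpose) h l j
  refine ⟨i, ?_⟩
  rwa [← Matrix.transpose_pow, Matrix.transpose_apply] at hi

/-- The bound. -/
theorem bound (A B : Mat) (l : ℕ) (hl : 0 < l) (h : SELag l A B) :
    ∃ C : Mat, SSE B C ∧ C.1 ≤ paths A l ∧ ∀ i j, C.2 i j ≤ paths A l ^ 2 := by
  obtain ⟨R, S, h1, h2, -, -⟩ := h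
  obtain ⟨k, f, hf, hs, hr, hc⟩ := trim B.1 B.2
  refine ⟨⟨k, B.2.submatrix f f⟩, hs, ?_⟩
  set r : Fin B.1 → ℕ := fun x => ∑ i, R i x with hrdef
  set s : Fin B.1 → ℕ := fun x => ∑ j, S x j with hsdef
  have hW : paths A l = ∑ x, r x * s x := by
    unfold paths
    rw [h1]
    calc ∑ i, ∑ j, (R * S) i j = ∑ i, ∑ x, ∑ j, R i x * S x j := by
          refine Finset.sum_congr rfl fun i _ => ?_
          simp only [Matrix.mul_apply]
          exact Finset.sum_comm
      _ = ∑ x, ∑ i, ∑ j, R i x * S x j := Finset.sum_comm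
      _ = ∑ x, r x * s x := Finset.sum_congr rfl fun x _ => (Finset.sum_mul_sum _ _ _ _).symm
  have hpos : ∀ a, 1 ≤ r (f a) ∧ 1 ≤ s (f a) := by
    intro a
    constructor
    · obtain ⟨b, hb⟩ := col_pow (C := B.2.submatrix f f) hc l a
      have hb' : 0 < (B.2 ^ l) (f b) (f a) := lt_of_lt_of_le (Nat.pos_of_ne_zero hb)
        (pow_sub hf B.2 l b a)
      rw [h2, Matrix.mul_apply] at hb'
      obtain ⟨i, -, hi⟩ := Finset.exists_ne_zero_of_sum_ne_zero hb'.ne'
      have h3 : R i (f a) ≤ r (f a) :=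
        Finset.single_le_sum (f := fun i => R i (f a)) (fun _ _ => Nat.zero_le _)
          (Finset.mem_univ i)
      have h4 : R i (f a) ≠ 0 := right_ne_zero_of_mul hi
      omega
    · obtain ⟨b, hb⟩ := row_pow (C := B.2.submatrix f f) hr l a
      have hb' : 0 < (B.2 ^ l) (f a) (f b) := lt_of_lt_of_le (Nat.pos_of_ne_zero hb)
        (pow_sub hf B.2 l a b)
      rw [h2, Matrix.mul_apply] at hb'
      obtain ⟨i, -, hi⟩ := Finset.exists_ne_zero_of_sum_ne_zero hb'.ne'
      have h3 : S (f a) i ≤ s (f a) :=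
        Finset.single_le_sum (f := fun i => S (f a) i) (fun _ _ => Nat.zero_le _)
          (Finset.mem_univ i)
      have h4 : S (f a) i ≠ 0 := left_ne_zero_of_mul hi
      omega
  have hone : ∀ a, r (f a) * s (f a) ≤ paths A l := by
    intro a
    rw [hW]
    exact Finset.single_le_sum (f := fun x => r x * s x) (fun _ _ => Nat.zero_le _)
      (Finset.mem_univ (f a))
  have hrW : ∀ a, r (f a) ≤ paths A l := fun a =>
    le_trans (Nat.le_mul_of_pos_right _ (hpos a).2) (hone a)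
  have hsW : ∀ a, s (f a) ≤ paths A l := fun a =>
    le_trans (Nat.le_mul_of_pos_left _ (hpos a).1) (hone a)
  constructor
  · change k ≤ paths A l
    have h3 : (k : ℕ) = ∑ _a : Fin k, 1 := by simp
    rw [h3, hW]
    refine le_trans (Finset.sum_le_sum fun a _ => ?_) (sum_inj hf (fun x => r x * s x))
    exact Nat.mul_pos (hpos a).1 (hpos a).2
  · intro i j
    change B.2 (f i) (f j) ≤ _
    obtain ⟨l', rfl⟩ : ∃ l', l = l' + 1 := ⟨l - 1, by omega⟩
    obtain ⟨b, hb⟩ := row_pow (C := B.2.submatrix f f) hr l' j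
    have h3 : B.2 (f i) (f j) ≤ ((B.2.submatrix f f) ^ (l' + 1)) i b := by
      rw [pow_succ', Matrix.mul_apply]
      refine le_trans ?_ (Finset.single_le_sum
        (f := fun x => (B.2.submatrix f f) i x * ((B.2.submatrix f f) ^ l') x b)
        (fun _ _ => Nat.zero_le _) (Finset.mem_univ j))
      exact Nat.le_mul_of_pos_right _ (Nat.pos_of_ne_zero hb)
    refine le_trans h3 (le_trans (pow_sub hf B.2 (l' + 1) i b) ?_)
    rw [h2, Matrix.mul_apply]
    have h4 : ∑ x, S (f i) x * R x (f b) ≤ s (f i) * r (f b) := by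
      rw [hrdef, hsdef]
      simp only
      rw [Finset.sum_mul]
      refine Finset.sum_le_sum fun x _ => Nat.mul_le_mul_left _ ?_
      exact Finset.single_le_sum (f := fun x => R x (f b)) (fun _ _ => Nat.zero_le _)
        (Finset.mem_univ x)
    refine le_trans h4 ?_
    rw [sq]
    exact Nat.mul_le_mul (hsW i) (hrW b)

theorem finite_box (N M : ℕ) : {Z : Mat | Z.1 ≤ N ∧ ∀ i j, Z.2 i j ≤ M}.Finite := by
  let g : (Σ n : Fin (N + 1), (Fin n → Fin n → Fin (M + 1))) → Mat :=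
    fun x => ⟨x.1, fun i j => (x.2 i j : ℕ)⟩
  refine (Set.finite_range g).subset ?_
  rintro ⟨n, Z⟩ ⟨hn, hZ⟩
  exact ⟨⟨⟨n, Nat.lt_succ_of_le hn⟩, fun i j => ⟨Z i j, Nat.lt_succ_of_le (hZ i j)⟩⟩, rfl⟩

theorem lag_elem {l : ℕ} {A B C : Mat} (h : SELag l A B) (hE : Elem B C) : SELag (l + 1) A C := by
  obtain ⟨R, S, h1, h2, h3, h4⟩ := h
  obtain ⟨P, Q, e1, e2⟩ := hE
  have hpow : ∀ j : ℕ, Q * (P * Q) ^ j * P = (Q * P) ^ (j + 1) := by
    intro j
    induction j with
    | zero => simp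
    | succ j ih =>
      rw [pow_succ (P * Q) j, pow_succ (Q * P) (j + 1), ← ih]
      simp only [Matrix.mul_assoc]
  refine ⟨R * P, Q * S, ?_, ?_, ?_, ?_⟩
  · calc A.2 ^ (l + 1) = A.2 * (R * S) := by rw [pow_succ', h1]
      _ = R * B.2 * S := by rw [← Matrix.mul_assoc, h3]
      _ = R * P * (Q * S) := by rw [e1]; simp only [Matrix.mul_assoc]
  · calc C.2 ^ (l + 1) = Q * (P * Q) ^ l * P := by rw [hpow, e2]
      _ = Q * (S * R) * P := by rw [← h2, e1]
      _ = Q * S * (R * P) := by simp only [Matrix.mul_assoc]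
  · calc A.2 * (R * P) = R * B.2 * P := by rw [← Matrix.mul_assoc, h3]
      _ = R * P * C.2 := by rw [e1, e2]; simp only [Matrix.mul_assoc]
  · calc Q * S * A.2 = Q * (B.2 * S) := by rw [Matrix.mul_assoc, h4]
      _ = C.2 * (Q * S) := by rw [e1, e2]; simp only [Matrix.mul_assoc]

theorem se_sse {A B C : Mat} (h : SE A B) (hs : SSE B C) : SE A C := by
  induction hs with
  | refl => exact h
  | tail _ hE ih =>
    obtain ⟨l, hl, h'⟩ := ih
    exact ⟨l + 1, Nat.succ_pos l, lag_elem h' hE⟩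

theorem result :
    (∀ (A B : Mat) (l : ℕ), 0 < l → SELag l A B →
      ∃ C : Mat, SSE B C ∧ C.1 ≤ paths A l ∧ ∀ i j, C.2 i j ≤ paths A l ^ 2) ∧
    (∀ (A : Mat) (l : ℕ), ∃ F : List Mat, ∀ B : Mat,
      (∃ k, 0 < k ∧ k ≤ l ∧ SELag k A B) → ∃ C ∈ F, SSE B C) ∧
    ∀ A : Mat, (∃ F : List Mat, ∀ B : Mat, SE A B → ∃ C ∈ F, SSE B C) ↔
      ∃ l : ℕ, ∀ B : Mat, SE A B → ∃ C : Mat, SSE B C ∧ ∃ k, 0 < k ∧ k ≤ l ∧ SELag k A C := by
  have part2 : ∀ (A : Mat) (l : ℕ), ∃ F : List Mat, ∀ B : Mat,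
      (∃ k, 0 < k ∧ k ≤ l ∧ SELag k A B) → ∃ C ∈ F, SSE B C := by
    intro A l
    have hfin : (⋃ k ∈ Finset.range (l + 1),
        {Z : Mat | Z.1 ≤ paths A k ∧ ∀ i j, Z.2 i j ≤ paths A k ^ 2}).Finite :=
      Set.Finite.biUnion (Finset.finite_toSet _) fun k _ => finite_box _ _
    refine ⟨hfin.toFinset.toList, ?_⟩
    rintro B ⟨k, hk, hkl, h⟩
    obtain ⟨C, hC, h1, h2⟩ := bound A B k hk h
    refine ⟨C, ?_, hC⟩
    rw [Finset.mem_toList, Set.Finite.mem_toFinset]
    exact Set.mem_biUnion (Finset.mem_coe.2 (Finset.mem_range.2 (Nat.lt_succ_of_le hkl))) ⟨h1, h2⟩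
  refine ⟨bound, part2, fun A => ⟨?_, ?_⟩⟩
  · rintro ⟨F, hF⟩
    have key : ∀ F : List Mat, ∃ l : ℕ, ∀ C ∈ F, SE A C → ∃ k, 0 < k ∧ k ≤ l ∧ SELag k A C := by
      intro F
      induction F with
      | nil => exact ⟨0, fun C hC => absurd hC (by simp)⟩
      | cons D F ih =>
        obtain ⟨l, hl⟩ := ih
        by_cases hD : SE A D
        · obtain ⟨k, hk, h⟩ := hD
          refine ⟨max l k, fun C hC hA => ?_⟩
          rcases List.mem_cons.1 hC with rfl | hC
          · exact ⟨k, hk, le_max_right _ _, h⟩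
          · obtain ⟨k', h1, h2, h3⟩ := hl C hC hA
            exact ⟨k', h1, le_trans h2 (le_max_left _ _), h3⟩
        · refine ⟨l, fun C hC hA => ?_⟩
          rcases List.mem_cons.1 hC with rfl | hC
          · exact absurd hA hD
          · exact hl C hC hA
    obtain ⟨l, hl⟩ := key F
    refine ⟨l, fun B hB => ?_⟩
    obtain ⟨C, hC, hs⟩ := hF B hB
    exact ⟨C, hs, hl C hC (se_sse hB hs)⟩
  · rintro ⟨l, hl⟩
    obtain ⟨F, hF⟩ := part2 A l
    refine ⟨F, fun B hB => ?_⟩
    obtain ⟨C, hs, hk⟩ := hl B hB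
    obtain ⟨D, hD, hs'⟩ := hF C hk
    exact ⟨D, hD, hs.trans hs'⟩

end Pool.Agent.Results.MP_8ae193_an.BoundedLag
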